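import Mathlib

set_option autoImplicit false

namespace Pool.Agent.H41.TRing

/-- The index set: pairs of a word and a rational weight in `[0,1]`; weight `0` only for the empty word. -/
structure Mon where
  w : List ℕ
  q : ℚ
  h0 : 0 ≤ q
  h1 : q ≤ 1
  hw : q = 0 → w = []

lemma Mon.ext' {a b : Mon} (h : a.w = b.w) (h' : a.q = b.q) : a = b := by
  cases a; cases b; simp only at h h'; subst h; subst h'; rfl

noncomputable instance : DecidableEq Mon := Classical.decEq _

/-- The unit index. -/
def Mon.one : Mon := ⟨[], 0, le_rfl, zero_le_one, fun _ => rfl⟩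

instance : Countable Mon := by
  have : Function.Injective (fun a : Mon => (a.w, a.q)) := fun a b h =>
    Mon.ext' (congrArg Prod.fst h) (congrArg Prod.snd h)
  exact this.countable

/-- The product index, when the total weight is at most one. -/
def Mon.mul (a b : Mon) (h : a.q + b.q ≤ 1) : Mon :=
  ⟨a.w ++ b.w, a.q + b.q, add_nonneg a.h0 b.h0, h, fun h0 => by
    have ha : a.q = 0 := by have := a.h0; have := b.h0; linarith
    have hb : b.q = 0 := by have := a.h0; have := b.h0; linarith
    rw [a.hw ha, b.hw hb]; rfl⟩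

/-- The vector space with basis `Mon`; it will carry the truncated product. -/
def E : Type := Mon →₀ ℚ

noncomputable instance : AddCommGroup E := inferInstanceAs (AddCommGroup (Mon →₀ ℚ))
noncomputable instance : Module ℚ E := inferInstanceAs (Module ℚ (Mon →₀ ℚ))
instance : Countable E := inferInstanceAs (Countable (Mon →₀ ℚ))

/-- basis element -/
noncomputable def bs (a : Mon) : E := Finsupp.single a (1 : ℚ)

/-- coordinate -/
noncomputable def co (a : Mon) : E →ₗ[ℚ] ℚ := Finsupp.lapply a

lemma E_ext {x y : E} (h : ∀ a, co a x = co a y) : x = y := Finsupp.ext h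

lemma co_bs (a b : Mon) : co a (bs b) = if b = a then 1 else 0 := by
  show (Finsupp.single b (1 : ℚ)) a = _
  rw [Finsupp.single_apply]

/-- the product of two basis elements -/
noncomputable def op (a b : Mon) : E := if h : a.q + b.q ≤ 1 then bs (Mon.mul a b h) else 0

/-- the bilinear product -/
noncomputable def mulB : E →ₗ[ℚ] E →ₗ[ℚ] E :=
  Finsupp.linearCombination ℚ (fun a : Mon => (Finsupp.linearCombination ℚ (fun b : Mon => op a b) : (Mon →₀ ℚ) →ₗ[ℚ] E))

lemma mulB_bs (a b : Mon) : mulB (bs a) (bs b) = op a b := by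
  have h1 : mulB (bs a) = (Finsupp.linearCombination ℚ (fun b : Mon => op a b) : (Mon →₀ ℚ) →ₗ[ℚ] E) := by
    show (Finsupp.linearCombination ℚ (fun a : Mon => (Finsupp.linearCombination ℚ (fun b : Mon => op a b) : (Mon →₀ ℚ) →ₗ[ℚ] E))) (Finsupp.single a (1 : ℚ)) = _
    rw [Finsupp.linearCombination_single, one_smul]
  rw [h1]
  show (Finsupp.linearCombination ℚ (fun b : Mon => op a b)) (Finsupp.single b (1 : ℚ)) = _
  rw [Finsupp.linearCombination_single, one_smul]

lemma E_induction {P : E → Prop} (h0 : P 0) (hadd : ∀ x y, P x → P y → P (x + y))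
    (hsm : ∀ (c : ℚ) a, P (c • bs a)) (x : E) : P x := by
  refine Finsupp.induction_linear (motive := P) x h0 (fun f g hf hg => hadd f g hf hg) (fun a c => ?_)
  have := hsm c a
  rw [bs] at this
  have e : (c • (Finsupp.single a (1 : ℚ) : Mon →₀ ℚ)) = Finsupp.single a c := by
    rw [Finsupp.smul_single, smul_eq_mul, mul_one]
  rw [← e]; exact this

lemma op_assoc (a b c : Mon) : mulB (op a b) (bs c) = mulB (bs a) (op b c) := by
  have ha := a.h0
  have hb := b.h0
  have hc := c.h0
  by_cases h : a.q + b.q + c.q ≤ 1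
  · have h1 : a.q + b.q ≤ 1 := by linarith
    have h2 : b.q + c.q ≤ 1 := by linarith
    rw [op, dif_pos h1, op, dif_pos h2, mulB_bs, mulB_bs, op, op, dif_pos (by exact h),
      dif_pos (by show a.q + (b.q + c.q) ≤ 1; linarith)]
    congr 1
    apply Mon.ext'
    · simp [Mon.mul]
    · simp [Mon.mul, add_assoc]
  · have l : mulB (op a b) (bs c) = 0 := by
      by_cases h1 : a.q + b.q ≤ 1
      · rw [op, dif_pos h1, mulB_bs, op, dif_neg (by exact h)]
      · rw [op, dif_neg h1, map_zero, LinearMap.zero_apply]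
    have r : mulB (bs a) (op b c) = 0 := by
      by_cases h1 : b.q + c.q ≤ 1
      · rw [op, dif_pos h1, mulB_bs, op, dif_neg]
        show ¬ (a.q + (b.q + c.q) ≤ 1)
        intro h3; apply h; linarith
      · rw [op, dif_neg h1, map_zero]
    rw [l, r]

lemma mulB_assoc (x y z : E) : mulB (mulB x y) z = mulB x (mulB y z) := by
  induction x using E_induction with
  | h0 => simp
  | hadd x x' hx hx' => simp [map_add, LinearMap.add_apply, hx, hx']
  | hsm c a =>
    induction y using E_induction with
    | h0 => simp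
    | hadd y y' hy hy' => simp only [map_add, LinearMap.add_apply, hy, hy']
    | hsm d b =>
      induction z using E_induction with
      | h0 => simp
      | hadd z z' hz hz' => simp only [map_add, hz, hz']
      | hsm e f =>
        simp only [map_smul, LinearMap.smul_apply, mulB_bs, op_assoc]

lemma one_mulB (x : E) : mulB (bs Mon.one) x = x := by
  induction x using E_induction with
  | h0 => simp
  | hadd x x' hx hx' => rw [map_add, hx, hx']
  | hsm c a =>
    rw [map_smul, mulB_bs, op, dif_pos (by simpa [Mon.one] using a.h1)]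
    congr 2
    apply Mon.ext' <;> simp [Mon.mul, Mon.one]

lemma mulB_one (x : E) : mulB x (bs Mon.one) = x := by
  induction x using E_induction with
  | h0 => simp
  | hadd x x' hx hx' => rw [map_add, LinearMap.add_apply, hx, hx']
  | hsm c a =>
    rw [map_smul, LinearMap.smul_apply, mulB_bs, op, dif_pos (by simpa [Mon.one] using a.h1)]
    congr 2
    apply Mon.ext' <;> simp [Mon.mul, Mon.one]

noncomputable instance : Ring E :=
  { (inferInstance : AddCommGroup E) with
    mul := fun x y => mulB x y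
    left_distrib := fun x y z => map_add (mulB x) y z
    right_distrib := fun x y z => by
      show mulB (x + y) z = mulB x z + mulB y z
      rw [map_add, LinearMap.add_apply]
    zero_mul := fun x => by show mulB 0 x = 0; simp
    mul_zero := fun x => by show mulB x 0 = 0; simp
    mul_assoc := mulB_assoc
    one := bs Mon.one
    one_mul := one_mulB
    mul_one := mulB_one }

lemma mul_def (x y : E) : x * y = mulB x y := rfl
lemma one_def : (1 : E) = bs Mon.one := rfl


lemma bs_mul_bs (a b : Mon) : bs a * bs b = op a b := mulB_bs a b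

lemma smul_mul (c : ℚ) (x y : E) : (c • x) * y = c • (x * y) := by
  rw [mul_def, mul_def, map_smul, LinearMap.smul_apply]

lemma mul_smul' (c : ℚ) (x y : E) : x * (c • y) = c • (x * y) := by
  rw [mul_def, mul_def, map_smul]

lemma natCast_mul (n : ℕ) (x : E) : (n : E) * x = (n : ℚ) • x := by
  rw [← nsmul_eq_mul]
  exact (Nat.cast_smul_eq_nsmul ℚ n x).symm

/-- The integral elements. -/
noncomputable def RR : Subring E where
  carrier := {x | ∀ a, ∃ n : ℤ, co a x = n}
  zero_mem' := fun a => ⟨0, by simp⟩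
  one_mem' := fun a => by
    rw [one_def, co_bs]
    split_ifs
    · exact ⟨1, by simp⟩
    · exact ⟨0, by simp⟩
  add_mem' := fun {x y} hx hy a => by
    obtain ⟨n, hn⟩ := hx a
    obtain ⟨m, hm⟩ := hy a
    exact ⟨n + m, by rw [map_add, hn, hm]; push_cast; rfl⟩
  neg_mem' := fun {x} hx a => by
    obtain ⟨n, hn⟩ := hx a
    exact ⟨-n, by rw [map_neg, hn]; push_cast; rfl⟩
  mul_mem' := by
    intro x y hx hy
    -- both are integer combinations of basis elements
    have hop : ∀ a b c, ∃ n : ℤ, co c (op a b) = n := by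
      intro a b c
      rw [op]
      split_ifs with h
      · rw [co_bs]
        split_ifs
        · exact ⟨1, by simp⟩
        · exact ⟨0, by simp⟩
      · exact ⟨0, by simp⟩
    have hbil : ∀ c, co c (x * y) = ∑ a ∈ (show Mon →₀ ℚ from x).support,
        ∑ b ∈ (show Mon →₀ ℚ from y).support, co a x * co b y * co c (op a b) := by
      intro c
      have ex : ∀ z : E, z = ∑ a ∈ (show Mon →₀ ℚ from z).support, co a z • bs a := by
        intro z
        have := (Finsupp.sum_single (show Mon →₀ ℚ from z)).symm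
        rw [Finsupp.sum] at this
        have h2 : ∀ a, (Finsupp.single a ((show Mon →₀ ℚ from z) a) : Mon →₀ ℚ) = co a z • bs a := by
          intro a
          show (Finsupp.single a ((show Mon →₀ ℚ from z) a) : Mon →₀ ℚ) =
            ((show Mon →₀ ℚ from z) a) • (Finsupp.single a (1 : ℚ) : Mon →₀ ℚ)
          rw [Finsupp.smul_single, smul_eq_mul, mul_one]
        simp only [h2] at this
        exact this
      conv_lhs => rw [ex x, ex y]
      rw [Finset.sum_mul, map_sum]
      refine Finset.sum_congr rfl (fun a _ => ?_)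
      rw [Finset.mul_sum, map_sum]
      refine Finset.sum_congr rfl (fun b _ => ?_)
      rw [smul_mul, mul_smul', bs_mul_bs, map_smul, map_smul, smul_eq_mul, smul_eq_mul, mul_assoc]
    intro c
    choose f hf using hx
    choose g hg using hy
    choose k hk using hop
    refine ⟨∑ a ∈ (show Mon →₀ ℚ from x).support,
        ∑ b ∈ (show Mon →₀ ℚ from y).support, f a * g b * k a b c, ?_⟩
    rw [hbil]
    push_cast
    refine Finset.sum_congr rfl (fun a _ => Finset.sum_congr rfl (fun b _ => ?_))
    rw [hf, hg, hk]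

lemma expand (z : E) : z = ∑ a ∈ (show Mon →₀ ℚ from z).support, co a z • bs a := by
  have := (Finsupp.sum_single (show Mon →₀ ℚ from z)).symm
  rw [Finsupp.sum] at this
  have h2 : ∀ a, (Finsupp.single a ((show Mon →₀ ℚ from z) a) : Mon →₀ ℚ) = co a z • bs a := by
    intro a
    show (Finsupp.single a ((show Mon →₀ ℚ from z) a) : Mon →₀ ℚ) =
      ((show Mon →₀ ℚ from z) a) • (Finsupp.single a (1 : ℚ) : Mon →₀ ℚ)
    rw [Finsupp.smul_single, smul_eq_mul, mul_one]
  simp only [h2] at this
  exact this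

lemma mem_RR {x : E} : x ∈ RR ↔ ∀ a, ∃ n : ℤ, co a x = n := Iff.rfl

lemma bs_mem (a : Mon) : bs a ∈ RR := fun b => by
  rw [co_bs]
  split_ifs
  · exact ⟨1, by simp⟩
  · exact ⟨0, by simp⟩

/-- the nilpotent basis elements -/
def TT : Set E := {x | ∃ a : Mon, 0 < a.q ∧ x = bs a}

lemma span_RR (x : E) (hx : x ∈ RR) : x ∈ AddSubgroup.closure (insert (1 : E) TT) := by
  rw [expand x]
  refine AddSubgroup.sum_mem _ (fun a _ => ?_)
  obtain ⟨n, hn⟩ := hx a
  have hb : bs a ∈ AddSubgroup.closure (insert (1 : E) TT) := by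
    apply AddSubgroup.subset_closure
    rcases lt_or_eq_of_le a.h0 with h | h
    · exact Or.inr ⟨a, h, rfl⟩
    · left
      rw [one_def]
      congr 1
      exact Mon.ext' (a.hw h.symm) h.symm
  have : co a x • bs a = n • bs a := by
    rw [hn]; exact Int.cast_smul_eq_zsmul ℚ n (bs a)
  rw [this]
  exact AddSubgroup.zsmul_mem _ hb n

/-- `x` has order at least `r` -/
def Ord (r : ℚ) (x : E) : Prop := ∀ c, co c x ≠ 0 → r ≤ c.q

lemma ord_mul {r s : ℚ} {x y : E} (hx : Ord r x) (hy : Ord s y) : Ord (r + s) (x * y) := by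
  intro c hc
  by_contra hlt
  apply hc
  conv_lhs => rw [expand x, expand y]
  rw [Finset.sum_mul, map_sum]
  refine Finset.sum_eq_zero (fun a _ => ?_)
  rw [Finset.mul_sum, map_sum]
  refine Finset.sum_eq_zero (fun b _ => ?_)
  rw [smul_mul, mul_smul', bs_mul_bs, map_smul, map_smul, smul_eq_mul, smul_eq_mul]
  by_cases ha : co a x = 0
  · rw [ha, zero_mul]
  by_cases hb : co b y = 0
  · rw [hb, zero_mul, mul_zero]
  have h1 := hx a ha
  have h2 := hy b hb
  rw [op]
  split_ifs with h
  · rw [co_bs, if_neg, mul_zero, mul_zero]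
    intro h3
    apply hlt
    rw [← h3]
    exact add_le_add h1 h2
  · rw [map_zero, mul_zero, mul_zero]

lemma ord_bs (a : Mon) : Ord a.q (bs a) := by
  intro c hc
  rw [co_bs] at hc
  split_ifs at hc with h
  · rw [h]
  · exact absurd rfl hc

lemma ord_zero_of_gt {r : ℚ} (hr : 1 < r) {x : E} (hx : Ord r x) : x = 0 := by
  apply E_ext
  intro c
  rw [map_zero]
  by_contra hc
  exact absurd (hx c hc) (not_le.2 (lt_of_le_of_lt c.h1 hr))

lemma ord_pow {r : ℚ} {x : E} (hx : Ord r x) (n : ℕ) : Ord (n * r) (x ^ n) := by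
  induction n with
  | zero =>
    intro c _
    simpa using c.h0
  | succ n ih =>
    have := ord_mul ih hx
    rw [← pow_succ] at this
    have e : ((n + 1 : ℕ) : ℚ) * r = n * r + r := by push_cast; ring
    rw [e]; exact this

lemma bs_nilp (a : Mon) (ha : 0 < a.q) : ∃ k : ℕ, bs a ^ k = 0 := by
  obtain ⟨k, hk⟩ := exists_nat_gt (1 / a.q)
  refine ⟨k, ord_zero_of_gt ?_ (ord_pow (ord_bs a) k)⟩
  rw [div_lt_iff₀ ha] at hk
  exact hk

/-- central elements from weights -/
noncomputable def tt (r : ℚ) (h0 : 0 ≤ r) (h1 : r ≤ 1) : Mon := ⟨[], r, h0, h1, fun _ => rfl⟩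

lemma tt_comm (r : ℚ) (h0 : 0 ≤ r) (h1 : r ≤ 1) (x : E) : bs (tt r h0 h1) * x = x * bs (tt r h0 h1) := by
  induction x using E_induction with
  | h0 => simp
  | hadd x x' hx hx' => rw [mul_add, add_mul, hx, hx']
  | hsm c a =>
    rw [mul_smul', smul_mul, bs_mul_bs, bs_mul_bs, op, op]
    have e : (tt r h0 h1).q + a.q = a.q + (tt r h0 h1).q := add_comm _ _
    by_cases h : a.q + (tt r h0 h1).q ≤ 1
    · rw [dif_pos h, dif_pos (by rw [e]; exact h)]
      congr 2
      apply Mon.ext'
      · simp [Mon.mul, tt]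
      · simp [Mon.mul, tt, add_comm]
    · rw [dif_neg h, dif_neg (by rw [e]; exact h)]

/-- elements of order one are annihilated by everything up to the constant term -/
lemma top_mul {x : E} (hx : Ord 1 x) (y : E) : x * y = co Mon.one y • x ∧ y * x = co Mon.one y • x := by
  have key : ∀ a : Mon, bs a * x = co Mon.one (bs a) • x ∧ x * bs a = co Mon.one (bs a) • x := by
    intro a
    rcases lt_or_eq_of_le a.h0 with h | h
    · have h1 : bs a * x = 0 := ord_zero_of_gt (r := a.q + 1) (by linarith) (ord_mul (ord_bs a) hx)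
      have h2 : x * bs a = 0 := ord_zero_of_gt (r := 1 + a.q) (by linarith) (ord_mul hx (ord_bs a))
      have h3 : co Mon.one (bs a) = 0 := by
        rw [co_bs, if_neg]
        intro h4
        rw [h4] at h
        exact absurd h (lt_irrefl 0)
      rw [h1, h2, h3, zero_smul]; exact ⟨rfl, rfl⟩
    · have : a = Mon.one := Mon.ext' (a.hw h.symm) h.symm
      rw [this, co_bs, if_pos rfl, ← one_def, one_mul, mul_one, one_smul]
      exact ⟨rfl, rfl⟩
  induction y using E_induction with
  | h0 => simp
  | hadd y y' hy hy' => rw [mul_add, add_mul, map_add, add_smul, hy.1, hy.2, hy'.1, hy'.2]; exact ⟨rfl, rfl⟩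
  | hsm c a => rw [mul_smul', smul_mul, map_smul, (key a).1, (key a).2, smul_assoc]; exact ⟨rfl, rfl⟩

/-- central essentiality at the level of `E` -/
lemma cent_ess {x : E} (hx : x ≠ 0) : ∃ (r : ℚ) (h0 : 0 ≤ r) (h1 : r ≤ 1),
    x * bs (tt r h0 h1) ≠ 0 ∧ Ord 1 (x * bs (tt r h0 h1)) := by
  classical
  have hne : ((show Mon →₀ ℚ from x).support).Nonempty := by
    rw [Finsupp.support_nonempty_iff]; exact hx
  obtain ⟨c0, hc0, hmin⟩ := Finset.exists_min_image _ (fun c : Mon => c.q) hne
  have hc0' : co c0 x ≠ 0 := Finsupp.mem_support_iff.1 hc0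
  have hmin' : ∀ c, co c x ≠ 0 → c0.q ≤ c.q := fun c hc => hmin c (by
    rw [Finsupp.mem_support_iff]; exact hc)
  refine ⟨1 - c0.q, by linarith [c0.h1], by linarith [c0.h0], ?_, ?_⟩
  · -- coefficient at (c0.w, 1)
    intro h
    set t := tt (1 - c0.q) (by linarith [c0.h1]) (by linarith [c0.h0]) with ht
    have hle : c0.q + t.q ≤ 1 := by show c0.q + (1 - c0.q) ≤ 1; linarith
    apply hc0'
    have hcoef : co (Mon.mul c0 t hle) (x * bs t) = co c0 x := by
      conv_lhs => rw [expand x]
      rw [Finset.sum_mul, map_sum]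
      rw [Finset.sum_eq_single c0]
      · rw [smul_mul, map_smul, bs_mul_bs, op, dif_pos hle, co_bs, if_pos rfl, smul_eq_mul, mul_one]
      · intro b hb hbc
        rw [smul_mul, map_smul, bs_mul_bs, op]
        split_ifs with h2
        · rw [co_bs, if_neg, smul_zero]
          intro h3
          apply hbc
          have hw : b.w ++ t.w = c0.w ++ t.w := congrArg Mon.w h3
          have hq : b.q + t.q = c0.q + t.q := congrArg Mon.q h3
          apply Mon.ext'
          · simpa [ht, tt] using hw
          · linarith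
        · rw [map_zero, smul_zero]
      · intro h2; exact absurd hc0 h2
    rw [← hcoef, h, map_zero]
  · have h1 : Ord c0.q x := fun c hc => hmin' c hc
    have h2 := ord_mul h1 (ord_bs (tt (1 - c0.q) (by linarith [c0.h1]) (by linarith [c0.h0])))
    have e : c0.q + (tt (1 - c0.q) (by linarith [c0.h1]) (by linarith [c0.h0])).q = 1 := by
      show c0.q + (1 - c0.q) = 1; ring
    rw [e] at h2
    exact h2


lemma tf : ∀ n : ℕ, n ≠ 0 → ∀ x : E, (n : E) * x = 0 → x = 0 := by
  intro n hn x hx
  rw [natCast_mul] at hx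
  exact (smul_eq_zero.1 hx).resolve_left (by exact_mod_cast hn)

lemma divi : ∀ n : ℕ, n ≠ 0 → ∀ x : E, ∃ y : E, (n : E) * y = x := by
  intro n hn x
  refine ⟨(n : ℚ)⁻¹ • x, ?_⟩
  rw [natCast_mul, smul_smul, mul_inv_cancel₀ (by exact_mod_cast hn), one_smul]

lemma clear (x : E) : ∃ N : ℕ, N ≠ 0 ∧ (N : E) * x ∈ RR := by
  induction x using E_induction with
  | h0 => exact ⟨1, one_ne_zero, by rw [mul_zero]; exact RR.zero_mem⟩
  | hadd x y hx hy =>
    obtain ⟨N, hN, hNx⟩ := hx
    obtain ⟨M, hM, hMy⟩ := hy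
    refine ⟨N * M, mul_ne_zero hN hM, ?_⟩
    have e : ((N * M : ℕ) : E) * (x + y) = (M : E) * ((N : E) * x) + (N : E) * ((M : E) * y) := by
      push_cast
      rw [mul_add, ← mul_assoc, ← mul_assoc, (Nat.cast_commute M (N : E)).eq]
    rw [e]
    exact RR.add_mem (RR.mul_mem (natCast_mem RR M) hNx) (RR.mul_mem (natCast_mem RR N) hMy)
  | hsm c a =>
    refine ⟨c.den, c.den_ne_zero, ?_⟩
    rw [natCast_mul, smul_smul]
    have : (c.den : ℚ) * c = c.num := by
      rw [mul_comm]; exact Rat.mul_den_eq_num c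
    rw [this]
    have e : ((c.num : ℚ)) • bs a = (c.num : E) * bs a := by
      rw [← zsmul_eq_mul]; exact Int.cast_smul_eq_zsmul ℚ c.num (bs a)
    rw [e]
    exact RR.mul_mem (intCast_mem RR _) (bs_mem a)

lemma sep : ∀ x : E, x ∈ RR →
    (∀ n : ℕ, ∃ p : ℕ, n < p ∧ p.Prime ∧ ∃ y ∈ RR, x = (p : E) * y) → x = 0 := by
  intro x hx h
  apply E_ext
  intro a
  rw [map_zero]
  obtain ⟨m, hm⟩ := hx a
  rw [hm]
  by_contra hne
  have hm0 : m ≠ 0 := by
    intro h0; apply hne; rw [h0]; simp
  obtain ⟨p, hp1, hp, y, hy, hxy⟩ := h m.natAbs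
  obtain ⟨k, hk⟩ := hy a
  have : (m : ℚ) = (p : ℚ) * k := by
    rw [← hm, hxy, natCast_mul, map_smul, smul_eq_mul, hk]
  have h2 : m = (p : ℤ) * k := by exact_mod_cast this
  have h3 : p ∣ m.natAbs := by
    rw [h2, Int.natAbs_mul]
    exact dvd_mul_right p _
  exact absurd (Nat.le_of_dvd (Int.natAbs_pos.2 hm0) h3) (not_le.2 hp1)

/-- words in the letters give basis elements -/
lemma prod_bs {n : ℕ} (r : ℚ) (h0 : 0 < r) (h1 : r ≤ 1) (w : FreeMonoid (Fin n))
    (hw : (w.length : ℚ) * r ≤ 1) :
    ∃ h, FreeMonoid.lift (fun i : Fin n => bs ⟨[i.1], r, h0.le, h1, fun h => absurd h h0.ne'⟩) w =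
      bs ⟨(FreeMonoid.toList w).map (fun i => i.1), (w.length : ℚ) * r, by positivity, hw, h⟩ := by
  induction w using FreeMonoid.inductionOn' with
  | one => exact ⟨fun _ => rfl, by
      rw [map_one, one_def]
      congr 1
      apply Mon.ext'
      · rfl
      · simp [Mon.one]⟩
  | of_mul i w ih =>
    have hlen : ((FreeMonoid.of i * w).length : ℚ) = (w.length : ℚ) + 1 := by
      rw [FreeMonoid.length_mul, FreeMonoid.length_of]; push_cast; ring
    rw [hlen] at hw
    have hw' : (w.length : ℚ) * r ≤ 1 := by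
      have := h0.le
      nlinarith
    obtain ⟨h, e⟩ := ih hw'
    refine ⟨fun h2 => ?_, ?_⟩
    · exfalso
      rw [hlen] at h2
      have : 0 < ((w.length : ℚ) + 1) * r := by positivity
      exact this.ne' h2
    · rw [map_mul, FreeMonoid.lift_eval_of, e, bs_mul_bs, op, dif_pos (by show r + (w.length : ℚ) * r ≤ 1; linarith)]
      congr 1
      apply Mon.ext'
      · rfl
      · show r + (w.length : ℚ) * r = ((FreeMonoid.of i * w).length : ℚ) * r
        rw [hlen]; ring

end Pool.Agent.H41.TRing
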