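import Mathlib

set_option autoImplicit false

namespace Pool.Agent.H41.Zass

variable {E : Type} [Ring E] (R : Subring E)

/-- `x` lies in the localisation of `R` at the prime `p`. -/
def L (p : ℕ) (x : E) : Prop := ∃ n : ℕ, ¬ p ∣ n ∧ (n : E) * x ∈ R

variable {R}

lemma L_of_mem {p : ℕ} (hp : p.Prime) {x : E} (hx : x ∈ R) : L R p x :=
  ⟨1, fun h => hp.one_lt.ne' (Nat.dvd_one.mp h), by simpa using hx⟩

lemma L_add {p : ℕ} (hp : p.Prime) {x y : E} (hx : L R p x) (hy : L R p y) : L R p (x + y) := by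
  obtain ⟨n, hn, hnx⟩ := hx
  obtain ⟨m, hm, hmy⟩ := hy
  refine ⟨n * m, fun h => ?_, ?_⟩
  · rcases (Nat.Prime.dvd_mul hp).1 h with h | h
    · exact hn h
    · exact hm h
  · have e : ((n * m : ℕ) : E) * (x + y) = (m : E) * ((n : E) * x) + (n : E) * ((m : E) * y) := by
      push_cast
      rw [mul_add, ← mul_assoc, ← mul_assoc, (Nat.cast_commute m (n : E)).eq]
    rw [e]
    exact R.add_mem (R.mul_mem (natCast_mem R m) hnx) (R.mul_mem (natCast_mem R n) hmy)

lemma L_mul {p : ℕ} (hp : p.Prime) {x y : E} (hx : L R p x) (hy : L R p y) : L R p (x * y) := by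
  obtain ⟨n, hn, hnx⟩ := hx
  obtain ⟨m, hm, hmy⟩ := hy
  refine ⟨n * m, fun h => ?_, ?_⟩
  · rcases (Nat.Prime.dvd_mul hp).1 h with h | h
    · exact hn h
    · exact hm h
  · have e : ((n * m : ℕ) : E) * (x * y) = ((n : E) * x) * ((m : E) * y) := by
      push_cast
      rw [mul_assoc (n : E) x, ← mul_assoc x, ← (Nat.cast_commute m x).eq, mul_assoc, mul_assoc]
    rw [e]
    exact R.mul_mem hnx hmy

lemma L_neg {p : ℕ} {x : E} (hx : L R p x) : L R p (-x) := by
  obtain ⟨n, hn, hnx⟩ := hx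
  exact ⟨n, hn, by rw [mul_neg]; exact R.neg_mem hnx⟩

lemma L_sub {p : ℕ} (hp : p.Prime) {x y : E} (hx : L R p x) (hy : L R p y) : L R p (x - y) := by
  rw [sub_eq_add_neg]; exact L_add hp hx (L_neg hy)

lemma L_zero {p : ℕ} (hp : p.Prime) : L R p (0 : E) := L_of_mem hp R.zero_mem

/-- the key: if `x` is in `R_(p)` for all primes then it is in `R`. -/
lemma mem_of_forall_L (h1 : ∀ x : E, ∃ N : ℕ, N ≠ 0 ∧ (N : E) * x ∈ R) {x : E}
    (h : ∀ p : ℕ, p.Prime → L R p x) : x ∈ R := by
  classical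
  -- minimal N
  have hex := h1 x
  let N := Nat.find hex
  have hN : N ≠ 0 ∧ (N : E) * x ∈ R := Nat.find_spec hex
  have hmin : ∀ m, m < N → ¬ (m ≠ 0 ∧ (m : E) * x ∈ R) := fun m hm => Nat.find_min hex hm
  -- N divides every n with n x in R
  have hdvd : ∀ n : ℕ, (n : E) * x ∈ R → N ∣ n := by
    intro n hn
    by_contra hnd
    have hlt : n % N < N := Nat.mod_lt _ (Nat.pos_of_ne_zero hN.1)
    apply hmin _ hlt
    refine ⟨fun h0 => hnd (Nat.dvd_of_mod_eq_zero h0), ?_⟩
    have e : ((n % N : ℕ) : E) * x = (n : E) * x - ((n / N : ℕ) : E) * ((N : E) * x) := by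
      have := Nat.mod_add_div n N
      have h2 : (n : E) = ((n % N : ℕ) : E) + (N : E) * ((n / N : ℕ) : E) := by
        rw [← Nat.cast_mul, ← Nat.cast_add, this]
      rw [h2, add_mul, ← mul_assoc, (Nat.cast_commute N ((n / N : ℕ) : E)).eq]
      abel
    rw [e]
    exact R.sub_mem hn (R.mul_mem (natCast_mem R _) hN.2)
  have hN1 : N = 1 := by
    by_contra hne
    obtain ⟨p, hp, hpN⟩ := Nat.exists_prime_and_dvd hne
    obtain ⟨n, hn, hnx⟩ := h p hp
    exact hn (hpN.trans (hdvd n hnx))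
  have := hN.2
  rw [hN1] at this
  simpa using this


/-- `c p s k = ∑_{j<k} (-s)^j p^(k-1-j)`. -/
noncomputable def cc (p : ℕ) (s : E) (k : ℕ) : E :=
  ∑ j ∈ Finset.range k, (-s) ^ j * (p : E) ^ (k - 1 - j)

lemma mul_cc (p : ℕ) (s : E) (k : ℕ) (hs : s ^ k = 0) :
    ((p : E) + s) * cc p s k = (p : E) ^ k := by
  have hcomm : Commute (-s) (p : E) := (Nat.cast_commute p (-s)).symm
  have h := hcomm.mul_geom_sum₂ k
  have e : ((p : E) + s) = -((-s) - (p : E)) := by abel
  have hz : (-s) ^ k = 0 := by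
    rw [neg_pow, hs, mul_zero]
  rw [e, neg_mul, cc, h, hz]
  simp

/-- Divisibility by infinitely many primes forces vanishing. -/
def Sep (R : Subring E) : Prop :=
  ∀ x : E, x ∈ R → (∀ n : ℕ, ∃ p : ℕ, n < p ∧ p.Prime ∧ ∃ y ∈ R, x = (p : E) * y) → x = 0


/-- Torsion-freeness. -/
def TF (E : Type) [Ring E] : Prop := ∀ n : ℕ, n ≠ 0 → ∀ x : E, (n : E) * x = 0 → x = 0

lemma sep' (hS : Sep R) (h1 : ∀ x : E, ∃ N : ℕ, N ≠ 0 ∧ (N : E) * x ∈ R) (hT : TF E) {x : E}
    (h : ∀ n : ℕ, ∃ p : ℕ, n < p ∧ p.Prime ∧ ∃ w, L R p w ∧ x = (p : E) * w) : x = 0 := by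
  obtain ⟨N, hN, hNx⟩ := h1 x
  apply hT N hN
  apply hS _ hNx
  intro m
  obtain ⟨p, hmp, hp, w, ⟨n, hn, hnw⟩, hx⟩ := h m
  refine ⟨p, hmp, hp, ?_⟩
  -- Bezout
  have hcop : IsCoprime (n : ℤ) (p : ℤ) := by
    have : Nat.Coprime p n := (Nat.Prime.coprime_iff_not_dvd hp).2 hn
    exact (Nat.isCoprime_iff_coprime.2 this).symm
  obtain ⟨u, v, huv⟩ := hcop
  refine ⟨(u : E) * ((N : E) * ((n : E) * w)) + (v : E) * ((N : E) * x), ?_, ?_⟩
  · exact R.add_mem (R.mul_mem (intCast_mem R u) (R.mul_mem (natCast_mem R N) hnw))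
      (R.mul_mem (intCast_mem R v) hNx)
  · have huv' : (u : E) * (n : E) + (v : E) * (p : E) = 1 := by exact_mod_cast congrArg (Int.cast (R := E)) huv
    have c1 : (p : E) * ((u : E) * ((N : E) * ((n : E) * w))) = (u : E) * (n : E) * ((N : E) * x) := by
      rw [hx]
      have a1 : Commute (p : E) ((u : E) * ((N : E) * (n : E))) := Nat.cast_commute p _
      have a2 : (n : E) * (N : E) = (N : E) * (n : E) := (Nat.cast_commute n (N : E)).eq
      calc (p : E) * ((u : E) * ((N : E) * ((n : E) * w))) = ((p : E) * ((u : E) * ((N : E) * (n : E)))) * w := by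
            simp only [mul_assoc]
        _ = ((u : E) * ((N : E) * (n : E))) * (p : E) * w := by rw [a1.eq]
        _ = (u : E) * (n : E) * ((N : E) * ((p : E) * w)) := by
            rw [← a2]; simp only [mul_assoc]
    have c2 : (p : E) * ((v : E) * ((N : E) * x)) = (v : E) * (p : E) * ((N : E) * x) := by
      rw [← mul_assoc, (Nat.cast_commute p (v : E)).eq]
    rw [mul_add, c1, c2, ← add_mul, huv', one_mul]

lemma cast_pow_commute (p n : ℕ) (x : E) : (p : E) ^ n * x = x * (p : E) ^ n := by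
  rw [← Nat.cast_pow]; exact (Nat.cast_commute _ x).eq

lemma kill (hS : Sep R) (h1 : ∀ x : E, ∃ N : ℕ, N ≠ 0 ∧ (N : E) * x ∈ R) (hT : TF E) {v s : E} {k : ℕ}
    (hsR : s ∈ R) (hs : s ^ k = 0)
    (h : ∀ n : ℕ, ∃ p : ℕ, n < p ∧ p.Prime ∧ ∃ w, L R p w ∧ v * cc p s k = (p : E) ^ k * w) :
    v = 0 := by
  obtain ⟨N, hN, hNv⟩ := h1 v
  have key : ∀ i : ℕ, i ≤ k → v * s ^ (k - i) = 0 := by
    intro i
    induction i using Nat.strong_induction_on with
    | _ i ih =>
      intro hik
      rcases Nat.eq_zero_or_pos i with rfl | hi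
      · simp [hs]
      · -- t = k - i
        set t := k - i with ht
        have htk : t < k := by omega
        have hvan : ∀ j, t < j → v * (-s) ^ j = 0 := by
          intro j hj
          by_cases hjk : j ≤ k
          · have := ih (k - j) (by omega) (by omega)
            rw [Nat.sub_sub_self hjk] at this
            rw [neg_pow, ← mul_assoc, ← (((Commute.neg_one_left v).pow_left j)).eq, mul_assoc, this, mul_zero]
          · have : s ^ j = 0 := by
              rw [← Nat.sub_add_cancel (le_of_not_ge hjk), pow_add, hs, mul_zero]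
            rw [neg_pow, this, mul_zero, mul_zero]
        have hgoal : v * (-s) ^ t = 0 := by
          apply sep' hS h1 hT
          intro n
          obtain ⟨p, hp1, hp, w, hw, hvw⟩ := h (max n N)
          have hpn : n < p := lt_of_le_of_lt (le_max_left _ _) hp1
          have hpN : N < p := lt_of_le_of_lt (le_max_right _ _) hp1
          refine ⟨p, hpn, hp, ?_⟩
          have hLv : L R p v := ⟨N, fun hd => absurd (Nat.le_of_dvd (Nat.pos_of_ne_zero hN) hd) (not_le.2 hpN), hNv⟩
          have hLs : L R p (-s) := L_neg (L_of_mem hp hsR)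
          have hLp : ∀ m : ℕ, L R p ((p : E) ^ m) := fun m => L_of_mem hp (R.pow_mem (natCast_mem R p) m)
          have hLspow : ∀ m : ℕ, L R p ((-s) ^ m) := fun m =>
            L_of_mem hp (R.pow_mem (R.neg_mem hsR) m)
          -- expand
          have e1 : v * cc p s k = ∑ j ∈ Finset.range (t + 1), v * (-s) ^ j * (p : E) ^ (k - 1 - j) := by
            rw [cc, Finset.mul_sum]
            have hsub : Finset.range (t + 1) ⊆ Finset.range k := by
              intro a ha; simp only [Finset.mem_range] at *; omega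
            rw [← Finset.sum_subset hsub]
            · exact Finset.sum_congr rfl (fun j _ => by rw [mul_assoc])
            · intro j _ hj
              simp only [Finset.mem_range, not_lt] at hj
              rw [← mul_assoc, hvan j (by omega), zero_mul]
          have e2 : v * cc p s k = (p : E) ^ (k - 1 - t) *
              ∑ j ∈ Finset.range (t + 1), v * (-s) ^ j * (p : E) ^ (t - j) := by
            rw [e1, Finset.mul_sum]
            refine Finset.sum_congr rfl (fun j hj => ?_)
            simp only [Finset.mem_range] at hj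
            rw [cast_pow_commute, mul_assoc (v * (-s) ^ j), ← pow_add]
            congr 2
            omega
          have e3 : (p : E) ^ k * w = (p : E) ^ (k - 1 - t) * ((p : E) ^ (t + 1) * w) := by
            rw [← mul_assoc, ← pow_add]
            congr 2
            omega
          have e4 : ∑ j ∈ Finset.range (t + 1), v * (-s) ^ j * (p : E) ^ (t - j) = (p : E) ^ (t + 1) * w := by
            have hz : (p : E) ^ (k - 1 - t) * (∑ j ∈ Finset.range (t + 1), v * (-s) ^ j * (p : E) ^ (t - j) - (p : E) ^ (t + 1) * w) = 0 := by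
              rw [mul_sub, ← e2, ← e3, hvw, sub_self]
            have := hT (p ^ (k - 1 - t)) (pow_ne_zero _ hp.ne_zero) _ (by rw [Nat.cast_pow]; exact hz)
            exact sub_eq_zero.1 this
          rw [Finset.sum_range_succ, Nat.sub_self, pow_zero, mul_one] at e4
          refine ⟨(p : E) ^ t * w - ∑ j ∈ Finset.range t, v * (-s) ^ j * (p : E) ^ (t - j - 1), ?_, ?_⟩
          · apply L_sub hp
            · exact L_mul hp (hLp t) hw
            · have : ∀ (S : Finset ℕ), L R p (∑ j ∈ S, v * (-s) ^ j * (p : E) ^ (t - j - 1)) := by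
                intro S
                classical
                induction S using Finset.induction_on with
                | empty => simpa using L_zero hp
                | insert a S ha ihS =>
                  rw [Finset.sum_insert ha]
                  exact L_add hp (L_mul hp (L_mul hp hLv (hLspow _)) (hLp _)) ihS
              exact this _
          · rw [mul_sub, ← mul_assoc, ← pow_succ', Finset.mul_sum]
            have e5 : ∑ j ∈ Finset.range t, (p : E) * (v * (-s) ^ j * (p : E) ^ (t - j - 1)) =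
                ∑ j ∈ Finset.range t, v * (-s) ^ j * (p : E) ^ (t - j) := by
              refine Finset.sum_congr rfl (fun j hj => ?_)
              simp only [Finset.mem_range] at hj
              rw [(Nat.cast_commute p (v * (-s) ^ j * (p : E) ^ (t - j - 1))).eq, mul_assoc, ← pow_succ]
              congr 2
              omega
            rw [e5, ← e4]
            abel
        rw [neg_pow, ← mul_assoc, ← (((Commute.neg_one_left v).pow_left t)).eq, mul_assoc] at hgoal
        have : ((-1 : E) ^ t) * ((-1 : E) ^ t * (v * s ^ t)) = 0 := by rw [hgoal, mul_zero]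
        rw [← mul_assoc, ← pow_add, ← two_mul, pow_mul, neg_one_sq, one_pow, one_mul] at this
        exact this
  have := key k le_rfl
  simpa using this


/-- The data of the construction: for each prime `p` a nilpotent `s p ∈ R`. -/
structure Data (R : Subring E) where
  s : ℕ → E
  k : ℕ → ℕ
  hsR : ∀ p, s p ∈ R
  hs : ∀ p, s p ^ k p = 0

variable (D : Data R)

/-- The group: all `u` with `u c_p ∈ R_(p)` for every prime `p`. -/
def grp : AddSubgroup E where
  carrier := {u | ∀ p : ℕ, p.Prime → L R p (u * cc p (D.s p) (D.k p))}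
  zero_mem' := fun p hp => by rw [zero_mul]; exact L_zero hp
  add_mem' := fun {a b} ha hb p hp => by rw [add_mul]; exact L_add hp (ha p hp) (hb p hp)
  neg_mem' := fun {a} ha p hp => by rw [neg_mul]; exact L_neg (ha p hp)

lemma cc_mem (p : ℕ) {s : E} (hs : s ∈ R) (k : ℕ) : cc p s k ∈ R :=
  R.sum_mem (fun j _ => R.mul_mem (R.pow_mem (R.neg_mem hs) j) (R.pow_mem (natCast_mem R p) _))

lemma mem_grp_of_mem {x : E} (hx : x ∈ R) : x ∈ grp D := fun p hp =>
  L_of_mem hp (R.mul_mem hx (cc_mem p (D.hsR p) _))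

lemma mul_mem_grp {r x : E} (hr : r ∈ R) (hx : x ∈ grp D) : r * x ∈ grp D := fun p hp => by
  rw [mul_assoc]; exact L_mul hp (L_of_mem hp hr) (hx p hp)

/-- Left multiplication as a ring homomorphism into the endomorphism ring. -/
def toEnd : R →+* AddMonoid.End (grp D) where
  toFun r :=
    { toFun := fun x => ⟨r.1 * x.1, mul_mem_grp D r.2 x.2⟩
      map_zero' := by ext; simp
      map_add' := fun x y => by ext; simp [mul_add] }
  map_one' := AddMonoidHom.ext fun x => Subtype.ext (one_mul x.1)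
  map_mul' r s := AddMonoidHom.ext fun x => Subtype.ext (mul_assoc r.1 s.1 x.1)
  map_zero' := AddMonoidHom.ext fun x => Subtype.ext (zero_mul x.1)
  map_add' r s := AddMonoidHom.ext fun x => Subtype.ext (add_mul r.1 s.1 x.1)

lemma toEnd_injective : Function.Injective (toEnd D) := by
  intro r s h
  have := congrArg (fun f => ((f ⟨1, mem_grp_of_mem D R.one_mem⟩ : grp D) : E)) h
  have h2 : r.1 * 1 = s.1 * 1 := this
  rw [mul_one, mul_one] at h2
  exact Subtype.ext h2

/-- `E` is a `ℚ`-algebra in the weak sense that natural numbers are invertible. -/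
def Divi (E : Type) [Ring E] : Prop := ∀ n : ℕ, n ≠ 0 → ∀ x : E, ∃ y : E, (n : E) * y = x

lemma toEnd_surjective (hS : Sep R) (h1 : ∀ x : E, ∃ N : ℕ, N ≠ 0 ∧ (N : E) * x ∈ R) (hT : TF E)
    (hDv : Divi E) (T : Set E)
    (hspan : ∀ x ∈ R, x ∈ AddSubgroup.closure (insert (1 : E) T))
    (hTR : ∀ t ∈ T, t ∈ R)
    (hTinf : ∀ t ∈ T, ∀ n : ℕ, ∃ p : ℕ, n < p ∧ p.Prime ∧ D.s p = t)
    (hk : ∀ t ∈ T, ∃ k, ∀ p : ℕ, p.Prime → D.s p = t → D.k p = k) :
    Function.Surjective (toEnd D) := by
  intro φ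
  set a : E := (φ ⟨1, mem_grp_of_mem D R.one_mem⟩ : grp D).1 with ha
  have hagrp : a ∈ grp D := (φ ⟨1, mem_grp_of_mem D R.one_mem⟩ : grp D).2
  -- the special elements
  have hsp : ∀ p : ℕ, p.Prime → ∃ u : E, (p : E) ^ (D.k p) * u = (p : E) + D.s p ∧
      u * cc p (D.s p) (D.k p) = 1 ∧ u ∈ grp D := by
    intro p hp
    obtain ⟨u, hu⟩ := hDv (p ^ D.k p) (pow_ne_zero _ hp.ne_zero) ((p : E) + D.s p)
    rw [Nat.cast_pow] at hu
    have hu1 : u * cc p (D.s p) (D.k p) = 1 := by
      have e : (p : E) ^ D.k p * (u * cc p (D.s p) (D.k p) - 1) = 0 := by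
        rw [mul_sub, ← mul_assoc, hu, mul_cc p _ _ (D.hs p), mul_one, sub_self]
      have := hT (p ^ D.k p) (pow_ne_zero _ hp.ne_zero) _ (by rw [Nat.cast_pow]; exact e)
      exact sub_eq_zero.1 this
    refine ⟨u, hu, hu1, fun q hq => ?_⟩
    by_cases hqp : q = p
    · subst hqp
      rw [hu1]; exact L_of_mem hq R.one_mem
    · refine L_mul hq ⟨p ^ D.k p, fun hd => ?_, ?_⟩ (L_of_mem hq (cc_mem q (D.hsR q) _))
      · exact hqp ((Nat.prime_dvd_prime_iff_eq hq hp).1 (hq.dvd_of_dvd_pow hd))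
      · rw [Nat.cast_pow, hu]; exact R.add_mem (natCast_mem R p) (D.hsR p)
  obtain ⟨N, hN, hNa⟩ := h1 a
  -- φ on T
  have hφT : ∀ t (ht : t ∈ T), (φ ⟨t, mem_grp_of_mem D (hTR t ht)⟩ : grp D).1 = a * t := by
    intro t ht
    rw [← sub_eq_zero]
    obtain ⟨k, hk⟩ := hk t ht
    obtain ⟨p0, _, hp0, hp0t⟩ := hTinf t ht 0
    have htk : t ^ k = 0 := by
      have := D.hs p0
      rw [hp0t, hk p0 hp0 hp0t] at this
      exact this
    apply kill hS h1 hT (hTR t ht) htk
    intro n
    obtain ⟨p, hp1, hp, hpt⟩ := hTinf t ht (max n N)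
    have hpn : n < p := lt_of_le_of_lt (le_max_left _ _) hp1
    have hpN : N < p := lt_of_le_of_lt (le_max_right _ _) hp1
    refine ⟨p, hpn, hp, ?_⟩
    obtain ⟨u, hu, huc, hug⟩ := hsp p hp
    rw [hk p hp hpt, hpt] at hu huc
    set w : E := (φ ⟨u, hug⟩ : grp D).1 with hw
    have hwg : w ∈ grp D := (φ ⟨u, hug⟩ : grp D).2
    have e1 : (p : E) ^ k * w = (p : E) * a + (φ ⟨t, mem_grp_of_mem D (hTR t ht)⟩ : grp D).1 := by
      have h2 : (p ^ k) • (⟨u, hug⟩ : grp D) = p • (⟨1, mem_grp_of_mem D R.one_mem⟩ : grp D) +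
          ⟨t, mem_grp_of_mem D (hTR t ht)⟩ := by
        ext
        simp only [AddSubgroup.coe_nsmul, AddSubgroup.coe_add, nsmul_eq_mul, Nat.cast_pow, mul_one]
        exact hu
      have h3 := congrArg (fun z => ((φ z : grp D) : E)) h2
      simp only [map_nsmul, map_add, AddSubgroup.coe_nsmul, AddSubgroup.coe_add, nsmul_eq_mul,
        Nat.cast_pow] at h3
      exact h3
    refine ⟨w * cc p t k - a, ?_, ?_⟩
    · have h4 := hwg p hp
      rw [hk p hp hpt, hpt] at h4
      exact L_sub hp h4 ⟨N, fun hd => absurd (Nat.le_of_dvd (Nat.pos_of_ne_zero hN) hd) (not_le.2 hpN), hNa⟩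
    · have e2 : (φ ⟨t, mem_grp_of_mem D (hTR t ht)⟩ : grp D).1 = (p : E) ^ k * w - (p : E) * a := by
        rw [e1]; abel
      rw [e2]
      have e3 : (p : E) ^ k * w - (p : E) * a - a * t = (p : E) ^ k * w - a * ((p : E) + t) := by
        rw [mul_add, ← (Nat.cast_commute p a).eq]; abel
      rw [e3, sub_mul, mul_assoc, mul_assoc, mul_cc p t k htk, mul_sub, cast_pow_commute p k a]
  -- φ on R
  have hφR : ∀ x (hx : x ∈ R), (φ ⟨x, mem_grp_of_mem D hx⟩ : grp D).1 = a * x := by
    intro x hx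
    have hcl := hspan x hx
    have : ∀ y ∈ AddSubgroup.closure (insert (1 : E) T), ∃ hy : y ∈ R,
        (φ ⟨y, mem_grp_of_mem D hy⟩ : grp D).1 = a * y := by
      intro y hy
      induction hy using AddSubgroup.closure_induction with
      | mem z hz =>
        rcases hz with rfl | hz
        · exact ⟨R.one_mem, by rw [mul_one]⟩
        · exact ⟨hTR z hz, hφT z hz⟩
      | zero => exact ⟨R.zero_mem, by
          have : (⟨0, mem_grp_of_mem D R.zero_mem⟩ : grp D) = 0 := rfl
          rw [this, map_zero, mul_zero]; rfl⟩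
      | add y z _ _ ihy ihz =>
        obtain ⟨hy, ey⟩ := ihy
        obtain ⟨hz, ez⟩ := ihz
        refine ⟨R.add_mem hy hz, ?_⟩
        have : (⟨y + z, mem_grp_of_mem D (R.add_mem hy hz)⟩ : grp D) =
          ⟨y, mem_grp_of_mem D hy⟩ + ⟨z, mem_grp_of_mem D hz⟩ := rfl
        rw [this, map_add, AddSubgroup.coe_add, ey, ez, mul_add]
      | neg y _ ihy =>
        obtain ⟨hy, ey⟩ := ihy
        refine ⟨R.neg_mem hy, ?_⟩
        have : (⟨-y, mem_grp_of_mem D (R.neg_mem hy)⟩ : grp D) = -⟨y, mem_grp_of_mem D hy⟩ := rfl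
        rw [this, map_neg, AddSubgroup.coe_neg, ey, mul_neg]
    exact (this x hcl).2
  -- φ on the whole group
  have hφA : ∀ x : grp D, (φ x).1 = a * x.1 := by
    intro x
    obtain ⟨M, hM, hMx⟩ := h1 x.1
    have e : M • x = ⟨(M : E) * x.1, mem_grp_of_mem D hMx⟩ := by
      ext; simp [nsmul_eq_mul]
    have h2 := hφR _ hMx
    rw [← e, map_nsmul, AddSubgroup.coe_nsmul, nsmul_eq_mul] at h2
    rw [← sub_eq_zero]
    apply hT M hM
    rw [mul_sub, h2, ← mul_assoc, ← mul_assoc, (Nat.cast_commute M a).eq, sub_self]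
  -- a ∈ R
  have haR : a ∈ R := by
    apply mem_of_forall_L h1
    intro p hp
    obtain ⟨u, hu, huc, hug⟩ := hsp p hp
    have h2 := (φ ⟨u, hug⟩ : grp D).2 p hp
    rw [hφA, mul_assoc, huc, mul_one] at h2
    exact h2
  refine ⟨⟨a, haR⟩, ?_⟩
  ext x
  exact (hφA x).symm

end Pool.Agent.H41.Zass
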